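import Pool.Agent.Q7.LS.Stm

/-! # Project LS of helper7: job BRG, from the conditions for `D` to the conditions for `D0` -/

set_option autoImplicit false

namespace Pool.Agent.Q79.LS

open NumberField IsDedekindDomain
open Pool.Agent.Q283.LQ (Sm)
open Pool.Agent.Q7.LK
open Pool.Agent.Q7.LS
open Pool.Agent.Q283.EN (CondX)

section

variable {F : Type} [Field F] [NumberField F]

theorem lpw_pow (hBAS : S_BAS) (p : ℕ) [Fact p.Prime] (v : HeightOneSpectrum (𝓞 F)) {x : F} (h : Lpw p v x) :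
    ∀ j : ℕ, Lpw p v (x ^ j) := by
  have hb := hBAS p F v
  intro j
  induction j with
  | zero =>
    have h1 := hb.2.2.1 1 one_ne_zero
    rw [one_pow] at h1
    rwa [pow_zero]
  | succ j ih =>
    rw [pow_succ]
    exact hb.2.1 _ _ ih h

/-- the quotient `n = D0 / D` -/
theorem quo (hBAS : S_BAS) (p : ℕ) [Fact p.Prime] (v : HeightOneSpectrum (𝓞 F)) {D D0 : F} (hD : D ≠ 0) (hD0 : D0 ≠ 0)
    (h : Lpw p v (D / D0)) : Lpw p v (D0 / D) ∧ (Lpw p v D ↔ Lpw p v D0) ∧ vl p v D = vl p v D0 := by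
  have hb := hBAS p F v
  have h1 : Lpw p v (D0 / D) := by
    have h2 := hb.2.2.2.1 _ h
    rwa [inv_div] at h2
  refine ⟨h1, ⟨fun h2 => ?_, fun h2 => ?_⟩, ?_⟩
  · have h3 := hb.2.1 _ _ h2 h1
    rwa [mul_div_cancel₀ D0 hD] at h3
  · have h3 := hb.2.1 _ _ h2 h
    rwa [mul_div_cancel₀ D hD0] at h3
  · have h3 := hb.2.2.2.2.1 D0 (D / D0) hD0 (div_ne_zero hD hD0)
    rw [mul_div_cancel₀ D hD0, (hb.1 _ h).2, add_zero] at h3
    exact h3

end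

theorem brg (hBAS : S_BAS) (hATL : S_ATL) (hAUC : S_AUC) : S_BRG := by
  intro p _ hp F _ _ ζ hζ y hy T S hT hTS hS D0 hD0 k z q D hF
  have hsm : ∀ v : HeightOneSpectrum (𝓞 F), Dp p v → Sm y v := fun v hv => ⟨p, Fact.out, hy, hv⟩
  have hquo : ∀ v : HeightOneSpectrum (𝓞 F), Sm y v → Lpw p v (D0 / D) ∧ (Lpw p v D ↔ Lpw p v D0) ∧ vl p v D = vl p v D0 :=
    fun v hv => quo hBAS p v hF.ne hD0 (hF.loc v hv)
  have hmul : D * (D0 / D) = D0 := mul_div_cancel₀ D0 hF.ne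
  refine ⟨?_, ?_⟩
  · unfold sX
    congr 1
    ext v
    constructor
    · rintro ⟨h1, h2⟩
      exact ⟨h1, (hquo v (hS v h1)).2.1.1 h2⟩
    · rintro ⟨h1, h2⟩
      exact ⟨h1, (hquo v (hS v h1)).2.1.2 h2⟩
  · rintro N ⟨a, ha, hne⟩
    refine ⟨a, fun i => ⟨?_, (ha i).2⟩, hne⟩
    obtain ⟨h1, h2⟩ := ha i
    have ha0 : a i ≠ 0 := by
      intro h0
      refine h2 0 ⟨0, ?_⟩
      rw [h0, zero_mul, zero_pow (Fact.out : p.Prime).ne_zero]
    have hAo : ∀ v : HeightOneSpectrum (𝓞 F), ¬ Sm y v → Ao p v D (a i) := fun v hv =>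
      (h1 v).out (fun h => hv (hsm v (hT v h))) (fun h => hv (hsm v h)) (fun h => hv (hS v h.1))
    refine ⟨ha0, fun v hv h => (hAo v hv).2.1 h, fun v hv h => (hAo v hv).2.2 h, fun v hv => ?_⟩
    obtain ⟨q1, q2, q3⟩ := hquo v hv
    refine ⟨ha0, fun hv1 => ?_, fun hv1 hv2 hv3 => ?_, fun hv1 hv2 hv3 => ?_⟩
    · have h3 := (hATL p hp F ζ hζ).inv v D (D0 / D) (a i) (hT v hv1) hF.ne q1 ((h1 v).inT hv1)
      rwa [hmul] at h3
    · have h3 := (hAUC p hp F v D hF.ne).2.1 (D0 / D) (a i) q1 ((h1 v).inp hv1 hv2 fun h => hv3 ⟨h.1, q2.1 h.2⟩)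
      rwa [hmul] at h3
    · obtain ⟨_, h4, h5⟩ := (h1 v).out hv1 hv2 fun h => hv3 ⟨h.1, q2.1 h.2⟩
      refine ⟨ha0, fun h => h4 (q3.trans h), fun h => ?_⟩
      obtain ⟨j, hj⟩ := h5 fun h6 => h (q3.symm.trans h6)
      refine ⟨j, ?_⟩
      have h7 := (hBAS p F v).2.1 _ _ hj (lpw_pow hBAS p v q1 j)
      rwa [mul_assoc, ← mul_pow, hmul] at h7

end Pool.Agent.Q79.LS
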