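import Pool.Agent.Q79.LS.LogB1
import Pool.Agent.Q1.LK.SA

/-!
# Project LS (helper7), job LOGB: from `ℂ_p`-linear relations between the logarithms to relations `RelT`
-/

set_option autoImplicit false
set_option linter.unusedSectionVars false

namespace Pool.Agent.Q79.LS

open NumberField IsDedekindDomain Module Filter Topology Finset
open Pool.Agent.W289.SL Pool.Agent.Y419.LC.LcpP
open Pool.Agent.Q7.LS (OvT Un Nr RelT)

/-! ### The ball around `1` -/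

section ball

variable {p : ℕ} [hp : Fact p.Prime]

/-- `z` is close to `1` -/
def Bl (z : ℂ_[p]) : Prop := ‖z - 1‖ ≤ ((p : ℝ)⁻¹) ^ 4

theorem eps_le : ((p : ℝ)⁻¹) ^ 4 ≤ 1 / 8 := by
  have h5 : ((p : ℝ)⁻¹) ≤ 2⁻¹ := by
    apply inv_anti₀ (by norm_num)
    exact_mod_cast hp.out.two_le
  have h6 : ((p : ℝ)⁻¹) ^ 4 ≤ (2⁻¹) ^ 4 := pow_le_pow_left₀ (by positivity) h5 4
  refine h6.trans (by norm_num)

theorem Bl.lt {z : ℂ_[p]} (hz : Bl z) : ‖z - 1‖ < 1 :=
  lt_of_le_of_lt (hz.trans eps_le) (by norm_num)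

theorem Bl.norm {z : ℂ_[p]} (hz : Bl z) : ‖z‖ = 1 := by
  have h1 := hz.lt
  refine le_antisymm ?_ ?_
  · have h2 : z = (z - 1) + 1 := by ring
    rw [h2]
    refine (IsUltrametricDist.norm_add_le_max _ _).trans (max_le h1.le ?_)
    rw [norm_one]
  · by_contra h
    push Not at h
    have h2 : (1 : ℂ_[p]) = z + -(z - 1) := by ring
    have h3 : ‖(1 : ℂ_[p])‖ < 1 := by
      rw [h2]
      refine lt_of_le_of_lt (IsUltrametricDist.norm_add_le_max _ _) (max_lt h ?_)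
      rwa [norm_neg]
    rw [norm_one] at h3
    exact lt_irrefl _ h3

theorem Bl.ne {z : ℂ_[p]} (hz : Bl z) : z ≠ 0 := by
  intro h
  have := hz.norm
  rw [h, norm_zero] at this
  exact zero_ne_one this

theorem bl_one : Bl (1 : ℂ_[p]) := by
  unfold Bl
  rw [sub_self, norm_zero]
  positivity

theorem bl_mul {z w : ℂ_[p]} (hz : Bl z) (hw : Bl w) : Bl (z * w) := by
  unfold Bl
  have h1 : z * w - 1 = (z - 1) * w + (w - 1) := by ring
  rw [h1]
  refine (IsUltrametricDist.norm_add_le_max _ _).trans (max_le ?_ hw)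
  rw [norm_mul, hw.norm, mul_one]
  exact hz

theorem bl_inv {z : ℂ_[p]} (hz : Bl z) : Bl z⁻¹ := by
  unfold Bl
  have h0 := hz.ne
  have h1 : z⁻¹ - 1 = -((z - 1) * z⁻¹) := by
    field_simp
    ring
  rw [h1, norm_neg, norm_mul, norm_inv, hz.norm, inv_one, mul_one]
  exact hz

theorem bl_pow {z : ℂ_[p]} (hz : Bl z) (n : ℕ) : Bl (z ^ n) := by
  induction n with
  | zero =>
    rw [pow_zero]
    exact bl_one
  | succ n ih =>
    rw [pow_succ]
    exact bl_mul ih hz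

theorem bl_zpow {z : ℂ_[p]} (hz : Bl z) (n : ℤ) : Bl (z ^ n) := by
  cases n with
  | ofNat n =>
    rw [Int.ofNat_eq_natCast, zpow_natCast]
    exact bl_pow hz n
  | negSucc n =>
    rw [zpow_negSucc]
    exact bl_inv (bl_pow hz _)

theorem bl_prod {ι : Type} (s : Finset ι) (f : ι → ℂ_[p]) (h : ∀ i ∈ s, Bl (f i)) : Bl (∏ i ∈ s, f i) := by
  classical
  induction s using Finset.induction_on with
  | empty =>
    rw [Finset.prod_empty]
    exact bl_one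
  | insert a s ha ih =>
    rw [Finset.prod_insert ha]
    exact bl_mul (h a (Finset.mem_insert_self a s)) (ih fun i hi => h i (Finset.mem_insert_of_mem hi))

variable {E : Type} [Field E] [NumberField E]

/-- a power of an integral element which is a unit at `σ` is close to `1` -/
theorem exists_pw0 (σ : E →+* ℂ_[p]) (a : 𝓞 E) (ha : ‖σ ((a : 𝓞 E) : E)‖ = 1) :
    ∃ k : ℕ, 0 < k ∧ Bl (σ ((a : 𝓞 E) : E) ^ k) := by
  have hm : ((p : ℕ) : 𝓞 E) ^ 4 ≠ 0 := pow_ne_zero _ (by exact_mod_cast hp.out.ne_zero)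
  have hfin : Finite (𝓞 E ⧸ Ideal.span {((p : ℕ) : 𝓞 E) ^ 4}) :=
    Ideal.finiteQuotientOfFreeOfNeBot _ (by rwa [Ne, Ideal.span_singleton_eq_bot])
  obtain ⟨i, j, hij, he⟩ := Finite.exists_ne_map_eq_of_infinite
    (fun n : ℕ => Ideal.Quotient.mk (Ideal.span {((p : ℕ) : 𝓞 E) ^ 4}) (a ^ n))
  have key : ∀ i j : ℕ, i < j → Ideal.Quotient.mk (Ideal.span {((p : ℕ) : 𝓞 E) ^ 4}) (a ^ i) =
      Ideal.Quotient.mk (Ideal.span {((p : ℕ) : 𝓞 E) ^ 4}) (a ^ j) →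
      ∃ k : ℕ, 0 < k ∧ Bl (σ ((a : 𝓞 E) : E) ^ k) := by
    intro i j hlt he
    rw [Ideal.Quotient.mk_eq_mk_iff_sub_mem, Ideal.mem_span_singleton] at he
    obtain ⟨y, hy⟩ := he
    obtain ⟨k, rfl⟩ : ∃ k, j = i + (k + 1) := ⟨j - i - 1, by omega⟩
    refine ⟨k + 1, by omega, ?_⟩
    have e2 : a ^ i * (1 - a ^ (k + 1)) = ((p : ℕ) : 𝓞 E) ^ 4 * y := by
      rw [← hy]
      ring
    have e3 := congrArg (fun z : 𝓞 E => ‖σ (z : E)‖) e2
    simp only [map_mul, map_pow, map_sub, map_one, map_natCast, norm_mul, norm_pow, ha, one_pow, one_mul] at e3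
    unfold Bl
    rw [norm_sub_rev, e3, norm_p]
    calc ((p : ℝ)⁻¹) ^ 4 * ‖σ ((y : 𝓞 E) : E)‖ ≤ ((p : ℝ)⁻¹) ^ 4 * 1 := by
          gcongr
          exact norm_emb_le σ y
      _ = _ := mul_one _
  rcases lt_or_gt_of_ne hij with hlt | hlt
  · exact key i j hlt he
  · exact key j i hlt he.symm

/-- a power of an element which is a unit at `σ` is close to `1` -/
theorem exists_pw (σ : E →+* ℂ_[p]) (x : E) (hx : (PeH σ).valuation E x = 1) :
    ∃ k : ℕ, 0 < k ∧ Bl (σ x ^ k) := by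
  obtain ⟨a, s, hs, has⟩ := exists_rep (PeH σ) x hx.le
  have hs1 : (PeH σ).valuation E ((s : 𝓞 E) : E) = 1 := by
    have h1 : (PeH σ).valuation E ((s : 𝓞 E) : E) = (PeH σ).intValuation s :=
      HeightOneSpectrum.valuation_of_algebraMap (PeH σ) s
    rw [h1, HeightOneSpectrum.intValuation_eq_one_iff]
    exact hs
  have ha1 : (PeH σ).valuation E ((a : 𝓞 E) : E) = 1 := by
    rw [← has, map_mul, hx, hs1, one_mul]
  have ha : a ∉ (PeH σ).asIdeal := by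
    have h1 : (PeH σ).valuation E ((a : 𝓞 E) : E) = (PeH σ).intValuation a :=
      HeightOneSpectrum.valuation_of_algebraMap (PeH σ) a
    rw [h1, HeightOneSpectrum.intValuation_eq_one_iff] at ha1
    exact ha1
  have hns : ‖σ ((s : 𝓞 E) : E)‖ = 1 := norm_of_not_mem (σ := σ) hs
  have hna : ‖σ ((a : 𝓞 E) : E)‖ = 1 := norm_of_not_mem (σ := σ) ha
  obtain ⟨k, hk, hk2⟩ := exists_pw0 σ s hns
  obtain ⟨l, hl, hl2⟩ := exists_pw0 σ a hna
  refine ⟨k * l, Nat.mul_pos hk hl, ?_⟩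
  have hs0 : σ ((s : 𝓞 E) : E) ≠ 0 := by
    intro h0
    rw [h0, norm_zero] at hns
    exact zero_ne_one hns
  have h1 : σ x = σ ((a : 𝓞 E) : E) * (σ ((s : 𝓞 E) : E))⁻¹ := by
    rw [← has, map_mul]
    field_simp
  have h2 : σ x ^ (k * l) = (σ ((a : 𝓞 E) : E) ^ l) ^ k * ((σ ((s : 𝓞 E) : E) ^ k) ^ l)⁻¹ := by
    rw [h1, mul_pow, inv_pow, ← pow_mul, ← pow_mul, mul_comm l k]
  rw [h2]
  exact bl_mul (bl_pow hl2 k) (bl_inv (bl_pow hk2 l))

end ball

/-! ### Logarithms of products -/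

section lg

variable {p : ℕ} [hp : Fact p.Prime]

/-- the logarithm as a homomorphism -/
noncomputable def lgHom {L : ℂ_[p] → ℂ_[p]} (hL : IsIwasawaLog p L) : Additive ℂ_[p]ˣ →+ ℂ_[p] where
  toFun u := L ((Additive.toMul u : ℂ_[p]ˣ) : ℂ_[p])
  map_zero' := hL.one
  map_add' u v := hL.mul _ _ (Additive.toMul u).ne_zero (Additive.toMul v).ne_zero

theorem lg_prod {L : ℂ_[p] → ℂ_[p]} (hL : IsIwasawaLog p L) {q : ℕ} (y : Fin q → ℂ_[p]ˣ) (m : Fin q → ℤ) :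
    L ((∏ i, y i ^ m i : ℂ_[p]ˣ) : ℂ_[p]) = ∑ i, (m i : ℂ_[p]) * L ((y i : ℂ_[p]ˣ) : ℂ_[p]) := by
  have h2 : lgHom hL (Additive.ofMul (∏ i, y i ^ m i)) = ∑ i, (m i) • lgHom hL (Additive.ofMul (y i)) := by
    rw [ofMul_prod, map_sum]
    refine Finset.sum_congr rfl fun i _ => ?_
    rw [ofMul_zpow, map_zsmul]
  have h3 : L ((∏ i, y i ^ m i : ℂ_[p]ˣ) : ℂ_[p]) = lgHom hL (Additive.ofMul (∏ i, y i ^ m i)) := rfl
  rw [h3, h2]
  refine Finset.sum_congr rfl fun i _ => ?_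
  rw [zsmul_eq_mul]
  rfl

variable {E : Type} [Field E] [NumberField E]

theorem emb_prod (σ : E →+* ℂ_[p]) {q : ℕ} (x : Fin q → Eˣ) (m : Fin q → ℤ) :
    σ ((∏ i, x i ^ m i : Eˣ) : E) =
      ((∏ i, (Units.map (σ : E →* ℂ_[p]) (x i)) ^ m i : ℂ_[p]ˣ) : ℂ_[p]) := by
  have h1 : Units.map (σ : E →* ℂ_[p]) (∏ i, x i ^ m i) = ∏ i, (Units.map (σ : E →* ℂ_[p]) (x i)) ^ m i := by
    rw [map_prod]
    exact Finset.prod_congr rfl fun i _ => map_zpow _ _ _
  rw [← h1]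
  rfl

end lg

/-! ### The ideal of the embeddings above `T` -/

section ideal

variable {p : ℕ} [hp : Fact p.Prime] {F : Type} [Field F] [NumberField F] {L : Type} [Field L] [NumberField L]
  [Algebra F L]

theorem ovT_iff (T : Set (HeightOneSpectrum (𝓞 F))) : ∃ I : Ideal (𝓞 L), ∀ σ : L →+* ℂ_[p],
    Pool.Agent.Q22.LK.Ab I σ ↔ OvT T σ := by
  classical
  refine ⟨(Finset.univ.filter fun σ : L →+* ℂ_[p] => OvT T σ).inf Pe, fun σ => ⟨fun h => ?_, fun h => ?_⟩⟩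
  · have h1 : (Finset.univ.filter fun σ : L →+* ℂ_[p] => OvT T σ).inf Pe ≤ Pe σ := fun a ha => h a ha
    obtain ⟨τ, hτ, hle⟩ := (Ideal.IsPrime.inf_le' (pe_prime σ)).1 h1
    obtain ⟨v, hv, hvx⟩ := (Finset.mem_filter.1 hτ).2
    refine ⟨v, hv, fun x hx => ?_⟩
    have h2 : algebraMap (𝓞 F) (𝓞 L) x ∈ Pe τ := hvx x hx
    exact hle h2
  · intro a ha
    have h1 : (Finset.univ.filter fun σ : L →+* ℂ_[p] => OvT T σ).inf Pe ≤ Pe σ :=
      Finset.inf_le (Finset.mem_filter.2 ⟨Finset.mem_univ _, h⟩)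
    exact h1 ha

theorem ab_PeH {v : HeightOneSpectrum (𝓞 F)} {σ : L →+* ℂ_[p]}
    (h : ∀ x ∈ v.asIdeal, ‖σ (algebraMap F L ((x : 𝓞 F) : F))‖ < 1) : Pool.Agent.Q7.LS.Ab v (PeH σ) := by
  unfold Pool.Agent.Q7.LS.Ab
  rw [Ideal.map_le_iff_le_comap]
  intro x hx
  exact h x hx

theorem ovT_of_ab {T : Set (HeightOneSpectrum (𝓞 F))} {v : HeightOneSpectrum (𝓞 F)} (hv : v ∈ T)
    {P : HeightOneSpectrum (𝓞 L)} (hP : Pool.Agent.Q7.LS.Ab v P) {σ : L →+* ℂ_[p]}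
    (hσ : Pool.Agent.Q22.LK.Ab P.asIdeal σ) : OvT T σ := by
  refine ⟨v, hv, fun x hx => ?_⟩
  have h1 : algebraMap (𝓞 F) (𝓞 L) x ∈ P.asIdeal := hP (Ideal.mem_map_of_mem _ hx)
  exact hσ _ h1

end ideal

/-! ### Relations -/

section rel

variable {p : ℕ} [hp : Fact p.Prime] {F : Type} [Field F] [NumberField F] {L : Type} [Field L] [NumberField L]
  [Algebra F L]

theorem val_coe (P : HeightOneSpectrum (𝓞 L)) (a : 𝓞 L) : P.valuation L ((a : 𝓞 L) : L) = P.intValuation a :=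
  HeightOneSpectrum.valuation_of_algebraMap P a

/-- a `p`-adic relation between the logarithms above `T` gives a relation `RelT` -/
theorem rel_of_log {T : Set (HeightOneSpectrum (𝓞 F))} (hT : ∀ v ∈ T, Pool.Agent.Q7.LK.Dp p v)
    {Lg : ℂ_[p] → ℂ_[p]} (hL : IsIwasawaLog p Lg) {n : ℕ} (x : Fin n → Lˣ)
    (hxU : ∀ i, ∀ v ∈ T, Un v ((x i : Lˣ) : L))
    (hx : ∀ i (σ : L →+* ℂ_[p]), OvT T σ → Bl (σ ((x i : Lˣ) : L))) (b : Fin n → ℤ_[p])
    (hb : ∀ σ : L →+* ℂ_[p], OvT T σ → ∑ i, algebraMap ℚ_[p] ℂ_[p] (b i : ℚ_[p]) * Lg (σ ((x i : Lˣ) : L)) = 0) :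
    RelT p T x b := by
  classical
  have hm := fun i => exists_seq (b i)
  choose m hm using hm
  refine ⟨fun k i => m i k, hm, fun N => ?_⟩
  set u : ℕ → Lˣ := fun k => ∏ i, x i ^ m i k with hu
  have hlog : ∀ σ : L →+* ℂ_[p], OvT T σ → Tendsto (fun k => Lg (σ ((u k : Lˣ) : L))) atTop (𝓝 0) := by
    intro σ hσ
    have h1 : ∀ k, Lg (σ ((u k : Lˣ) : L)) = ∑ i, algebraMap ℚ_[p] ℂ_[p]
        (((m i k : ℤ) : PadicInt p) : ℚ_[p]) * Lg (σ ((x i : Lˣ) : L)) := by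
      intro k
      rw [hu, emb_prod, lg_prod hL]
      refine Finset.sum_congr rfl fun i _ => ?_
      have h2 : algebraMap ℚ_[p] ℂ_[p] (((m i k : ℤ) : PadicInt p) : ℚ_[p]) = ((m i k : ℤ) : ℂ_[p]) := by simp
      rw [h2]
      rfl
    simp only [h1]
    have hj : Continuous (fun x : PadicInt p => algebraMap ℚ_[p] ℂ_[p] (x : ℚ_[p])) :=
      (continuous_algebraMap ℚ_[p] ℂ_[p]).comp continuous_subtype_val
    rw [← hb σ hσ]
    refine tendsto_finsetSum _ fun i _ => ?_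
    exact ((hj.tendsto (b i)).comp (hm i)).mul_const _
  have hone : ∀ σ : L →+* ℂ_[p], OvT T σ → Tendsto (fun k => σ ((u k : Lˣ) : L) - 1) atTop (𝓝 0) := by
    intro σ hσ
    have h1 : ∀ k, ‖σ ((u k : Lˣ) : L) - 1‖ ≤ 2 * ‖Lg (σ ((u k : Lˣ) : L))‖ := by
      intro k
      have h2 : Bl (σ ((u k : Lˣ) : L)) := by
        rw [hu, emb_prod, Units.coe_prod]
        refine bl_prod _ _ fun i _ => ?_
        rw [Units.val_zpow_eq_zpow_val]
        exact bl_zpow (hx i σ hσ) _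
      have h3 := dist_le hL (h2.trans eps_le)
      rwa [add_sub_cancel] at h3
    refine squeeze_zero_norm h1 ?_
    have h2 := ((hlog σ hσ).norm).const_mul 2
    rw [norm_zero, mul_zero] at h2
    exact h2
  -- the primes above `T`
  have hfin : {P : HeightOneSpectrum (𝓞 L) | ∃ v ∈ T, Pool.Agent.Q7.LS.Ab v P}.Finite := by
    have hp0 : Ideal.span {((p : ℕ) : 𝓞 L)} ≠ 0 := by
      rw [Ne, Ideal.zero_eq_bot, Ideal.span_singleton_eq_bot]
      exact_mod_cast hp.out.ne_zero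
    refine (Ideal.finite_factors hp0).subset ?_
    rintro P ⟨v, hv, hP⟩
    show P.asIdeal ∣ Ideal.span {((p : ℕ) : 𝓞 L)}
    rw [Ideal.dvd_span_singleton]
    have h1 : algebraMap (𝓞 F) (𝓞 L) ((p : ℕ) : 𝓞 F) ∈ P.asIdeal := hP (Ideal.mem_map_of_mem _ (hT v hv))
    rwa [map_natCast] at h1
  have hev : ∀ P ∈ {P : HeightOneSpectrum (𝓞 L) | ∃ v ∈ T, Pool.Agent.Q7.LS.Ab v P},
      ∀ᶠ k in atTop, P.valuation L (((u k : Lˣ) : L) - 1) ≤ P.valuation L ((p : L) ^ N) := by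
    rintro P ⟨v, hv, hP⟩
    have hpP : ((p : ℕ) : 𝓞 L) ∈ P.asIdeal := by
      have h1 : algebraMap (𝓞 F) (𝓞 L) ((p : ℕ) : 𝓞 F) ∈ P.asIdeal := hP (Ideal.mem_map_of_mem _ (hT v hv))
      rwa [map_natCast] at h1
    have hval : ∀ k, P.valuation L ((u k : Lˣ) : L) = 1 := by
      intro k
      rw [hu, Units.coe_prod, map_prod]
      refine Finset.prod_eq_one fun i _ => ?_
      rw [Units.val_zpow_eq_zpow_val, map_zpow₀, hxU i v hv P hP, one_zpow]
    have hrep := fun k => exists_rep P ((u k : Lˣ) : L) (hval k).le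
    choose a s hs has using hrep
    have hconv : ∀ σ : L →+* ℂ_[p], Pool.Agent.Q22.LK.Ab P.asIdeal σ →
        Tendsto (fun k => σ (((a k - s k : 𝓞 L)) : L)) atTop (𝓝 0) := by
      intro σ hσ
      have h1 : ∀ k, ‖σ (((a k - s k : 𝓞 L)) : L)‖ ≤ ‖σ ((u k : Lˣ) : L) - 1‖ := by
        intro k
        have h2 : σ (((a k - s k : 𝓞 L)) : L) = (σ ((u k : Lˣ) : L) - 1) * σ ((s k : 𝓞 L) : L) := by
          have h3 : σ (((a k - s k : 𝓞 L)) : L) = σ ((a k : 𝓞 L) : L) - σ ((s k : 𝓞 L) : L) := by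
            simp only [map_sub]
          rw [h3, ← has k, map_mul]
          ring
        rw [h2, norm_mul]
        calc ‖σ ((u k : Lˣ) : L) - 1‖ * ‖σ ((s k : 𝓞 L) : L)‖ ≤ ‖σ ((u k : Lˣ) : L) - 1‖ * 1 := by
              gcongr
              exact norm_emb_le σ (s k)
          _ = _ := mul_one _
      refine squeeze_zero_norm h1 ?_
      have h2 := (hone σ (ovT_of_ab hv hP hσ)).norm
      rwa [norm_zero] at h2
    have hpN : ((p : ℕ) : 𝓞 L) ^ N ≠ 0 := pow_ne_zero _ (by exact_mod_cast hp.out.ne_zero)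
    have hvp : P.valuation L ((p : L) ^ N) = P.intValuation (((p : ℕ) : 𝓞 L) ^ N) := by
      rw [← val_coe]
      congr 1
    rw [hvp, HeightOneSpectrum.intValuation_eq_exp_neg_multiplicity P hpN]
    filter_upwards [Pool.Agent.Q22.LK.tendsto_mem (p := p) P.asIdeal hpP (fun k => a k - s k) hconv
      (multiplicity P.asIdeal (Ideal.span {((p : ℕ) : 𝓞 L) ^ N}))] with k hk
    rw [← HeightOneSpectrum.intValuation_le_pow_iff_mem] at hk
    refine le_trans (le_of_eq ?_) hk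
    rw [← val_coe]
    have h2 : ((((a k - s k : 𝓞 L)) : 𝓞 L) : L) = (((u k : Lˣ) : L) - 1) * ((s k : 𝓞 L) : L) := by
      have h3 : ((((a k - s k : 𝓞 L)) : 𝓞 L) : L) = ((a k : 𝓞 L) : L) - ((s k : 𝓞 L) : L) := by
        simp only [map_sub]
      rw [h3, ← has k]
      ring
    have h3 : P.valuation L ((s k : 𝓞 L) : L) = 1 := by
      rw [val_coe, HeightOneSpectrum.intValuation_eq_one_iff]
      exact hs k
    rw [h2, map_mul, h3, mul_one]
  filter_upwards [(Filter.eventually_all_finite hfin).2 hev] with k hk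
  intro v hv P hP
  exact hk P ⟨v, hv, hP⟩

end rel

/-- **LOGB** -/
theorem logb : Pool.Agent.Q7.LS.S_LOGB := by
  classical
  intro p hp hp2 F L _ _ _ _ _ T hT Lg hL n θ hθ t A hA hrel
  -- a power close to `1`
  have hun : ∀ i (σ : L →+* ℂ_[p]), OvT T σ → (PeH σ).valuation L ((θ i : Lˣ) : L) = 1 := by
    rintro i σ ⟨v, hv, hvx⟩
    exact hθ i v hv (PeH σ) (ab_PeH hvx)
  have hk : ∀ i (σ : L →+* ℂ_[p]), ∃ k : ℕ, 0 < k ∧ (OvT T σ → Bl (σ ((θ i : Lˣ) : L) ^ k)) := by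
    intro i σ
    by_cases h : OvT T σ
    · obtain ⟨k, hk, hk2⟩ := exists_pw σ _ (hun i σ h)
      exact ⟨k, hk, fun _ => hk2⟩
    · exact ⟨1, one_pos, fun h' => absurd h' h⟩
  choose k hk0 hk using hk
  set h : ℕ := ∏ i, ∏ σ : L →+* ℂ_[p], k i σ with hh
  have hh0 : 0 < h := Finset.prod_pos fun i _ => Finset.prod_pos fun σ _ => hk0 i σ
  have hdvd : ∀ i σ, k i σ ∣ h := fun i σ =>
    (Finset.dvd_prod_of_mem (fun σ => k i σ) (Finset.mem_univ σ)).trans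
      (Finset.dvd_prod_of_mem (fun i => ∏ σ : L →+* ℂ_[p], k i σ) (Finset.mem_univ i))
  have hx : ∀ i (σ : L →+* ℂ_[p]), OvT T σ → Bl (σ ((θ i ^ h : Lˣ) : L)) := by
    intro i σ hσ
    obtain ⟨q, hq⟩ := hdvd i σ
    rw [Units.val_pow_eq_pow_val, map_pow, hq, pow_mul]
    exact bl_pow (hk i σ hσ) q
  have hxU : ∀ i, ∀ v ∈ T, Un v ((θ i ^ h : Lˣ) : L) := by
    intro i v hv P hP
    rw [Units.val_pow_eq_pow_val, map_pow, hθ i v hv P hP, one_pow]
  obtain ⟨I, hI⟩ := ovT_iff (p := p) (L := L) T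
  have hd := fun i => rat_log hL I ((θ i ^ h : Lˣ) : L) (fun σ hσ => (hx i σ ((hI σ).1 hσ)).lt)
  choose d hd using hd
  obtain ⟨M0, hM0⟩ := exists_inv (p := p) (E := L)
  have hlogn : ∀ (σ : L →+* ℂ_[p]) i, Lg (σ ((θ i ^ h : Lˣ) : L)) = (h : ℂ_[p]) * Lg (σ ((θ i : Lˣ) : L)) := by
    intro σ i
    rw [Units.val_pow_eq_pow_val, map_pow]
    exact hL.pow (by
      rw [Ne, map_eq_zero]
      exact (θ i).ne_zero) h
  obtain ⟨b, hb, hb2⟩ := Pool.Agent.Q1.LK.sol_descent (k := ℚ_[p]) (l := ℂ_[p]) d A hA (by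
    intro s m
    rw [hM0 (fun m => ∑ i, A s i * algebraMap ℚ_[p] ℂ_[p] (d i m)) m]
    refine Finset.sum_eq_zero fun σ _ => ?_
    have h3 : ∑ m, (∑ i, A s i * algebraMap ℚ_[p] ℂ_[p] (d i m)) * σ ((om L m : 𝓞 L) : L) = 0 := by
      simp only [Finset.sum_mul]
      rw [Finset.sum_comm]
      have h4 : ∀ i, ∑ m, A s i * algebraMap ℚ_[p] ℂ_[p] (d i m) * σ ((om L m : 𝓞 L) : L) =
          A s i * (if Pool.Agent.Q22.LK.Ab I σ then Lg (σ ((θ i ^ h : Lˣ) : L)) else 0) := by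
        intro i
        rw [show (if Pool.Agent.Q22.LK.Ab I σ then Lg (σ ((θ i ^ h : Lˣ) : L)) else 0) = _ from hd i σ,
          Finset.mul_sum]
        refine Finset.sum_congr rfl fun m _ => ?_
        ring
      simp only [h4]
      by_cases h' : Pool.Agent.Q22.LK.Ab I σ
      · simp only [if_pos h', hlogn]
        have h5 := hrel s σ ((hI σ).1 h')
        calc ∑ i, A s i * ((h : ℂ_[p]) * Lg (σ ((θ i : Lˣ) : L))) =
              (h : ℂ_[p]) * ∑ i, A s i * Lg (σ ((θ i : Lˣ) : L)) := by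
              rw [Finset.mul_sum]
              refine Finset.sum_congr rfl fun i _ => ?_
              ring
          _ = 0 := by rw [h5, mul_zero]
      · simp only [if_neg h', mul_zero, Finset.sum_const_zero]
    rw [h3, zero_mul])
  -- clear denominators
  obtain ⟨M, hM⟩ : ∃ M : ℕ, ∀ s i, ‖((p : ℕ) : ℚ_[p]) ^ M * b s i‖ ≤ 1 := by
    have h1 : ∀ᶠ M : ℕ in atTop, ∀ s i, ‖((p : ℕ) : ℚ_[p]) ^ M * b s i‖ ≤ 1 := by
      rw [Filter.eventually_all]
      intro s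
      rw [Filter.eventually_all]
      intro i
      have h2 : Tendsto (fun M : ℕ => ((p : ℕ) : ℚ_[p]) ^ M * b s i) atTop (𝓝 0) := by
        have h4 := (tendsto_pow_atTop_nhds_zero_of_norm_lt_one (Padic.norm_p_lt_one (p := p))).mul_const (b s i)
        rwa [zero_mul] at h4
      have h5 := h2.norm
      rw [norm_zero] at h5
      exact (h5.eventually (gt_mem_nhds one_pos)).mono fun M hM => le_of_lt hM
    exact h1.exists
  set c : Fin t → Fin n → ℤ_[p] := fun s i => ⟨((p : ℕ) : ℚ_[p]) ^ M * b s i, hM s i⟩ with hc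
  have hcc : ∀ s i, ((c s i : ℤ_[p]) : ℚ_[p]) = ((p : ℕ) : ℚ_[p]) ^ M * b s i := fun s i => rfl
  have h20 : ((p : ℕ) : ℚ_[p]) ^ M ≠ 0 := pow_ne_zero _ (by exact_mod_cast hp.out.ne_zero)
  have hcind : LinearIndependent ℤ_[p] c := by
    rw [Fintype.linearIndependent_iff]
    intro g hg
    have h1 : ∑ s, ((g s : ℤ_[p]) : ℚ_[p]) • b s = 0 := by
      funext i
      rw [Finset.sum_apply, Pi.zero_apply]
      have h2 := congrArg (fun z : ℤ_[p] => (z : ℚ_[p])) (congrFun hg i)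
      simp only [Finset.sum_apply, Pi.smul_apply, smul_eq_mul, Pi.zero_apply, PadicInt.coe_sum, PadicInt.coe_mul,
        PadicInt.coe_zero, hcc] at h2
      have h3 : ((p : ℕ) : ℚ_[p]) ^ M * ∑ s, ((g s : ℤ_[p]) : ℚ_[p]) * b s i = 0 := by
        rw [Finset.mul_sum, ← h2]
        refine Finset.sum_congr rfl fun s _ => ?_
        ring
      have h4 := (mul_eq_zero.1 h3).resolve_left h20
      simpa only [Pi.smul_apply, smul_eq_mul] using h4
    have h2 := Fintype.linearIndependent_iff.1 hb _ h1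
    intro s
    exact Subtype.ext (h2 s)
  have hcrel : ∀ s, RelT p T (fun i => θ i ^ h) (c s) := by
    intro s
    refine rel_of_log hT hL _ hxU hx (c s) ?_
    intro σ hσ
    have h1 : ∀ i, Lg (σ ((θ i ^ h : Lˣ) : L)) =
        ∑ m, algebraMap ℚ_[p] ℂ_[p] (d i m) * σ ((om L m : 𝓞 L) : L) := by
      intro i
      have h2 := hd i σ
      rw [← h2]
      show _ = if Pool.Agent.Q22.LK.Ab I σ then Lg (σ ((θ i ^ h : Lˣ) : L)) else 0
      rw [if_pos ((hI σ).2 hσ)]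
    simp only [h1, hcc]
    have h3 : ∀ i, algebraMap ℚ_[p] ℂ_[p] (((p : ℕ) : ℚ_[p]) ^ M * b s i) *
        ∑ m, algebraMap ℚ_[p] ℂ_[p] (d i m) * σ ((om L m : 𝓞 L) : L) =
        ∑ m, algebraMap ℚ_[p] ℂ_[p] (((p : ℕ) : ℚ_[p]) ^ M * (b s i * d i m)) * σ ((om L m : 𝓞 L) : L) := by
      intro i
      rw [Finset.mul_sum]
      refine Finset.sum_congr rfl fun m _ => ?_
      rw [← mul_assoc, ← map_mul, mul_assoc]
    simp only [h3]
    rw [Finset.sum_comm]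
    refine Finset.sum_eq_zero fun m _ => ?_
    rw [← Finset.sum_mul, ← map_sum, ← Finset.mul_sum, hb2 s m, mul_zero, map_zero, zero_mul]
  refine ⟨fun s => (h : ℤ_[p]) • c s, ?_, fun s => ?_⟩
  · have hn2 : (h : ℤ_[p]) ≠ 0 := by exact_mod_cast hh0.ne'
    rw [Fintype.linearIndependent_iff] at hcind ⊢
    intro g hg s
    have h1 := hcind (fun s => g s * (h : ℤ_[p])) (by
      rw [← hg]
      refine Finset.sum_congr rfl fun s _ => ?_
      rw [mul_smul]) s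
    exact (mul_eq_zero.1 h1).resolve_right hn2
  · obtain ⟨m, hm, hm2⟩ := hcrel s
    refine ⟨fun k i => (h : ℤ) * m k i, fun i => ?_, fun N => ?_⟩
    · have h8 := (hm i).const_mul (h : ℤ_[p])
      refine h8.congr fun k => ?_
      push_cast
      rfl
    · filter_upwards [hm2 N] with k hk
      have h2 : ∏ i, θ i ^ ((h : ℤ) * m k i) = ∏ i, (θ i ^ h) ^ m k i := by
        refine Finset.prod_congr rfl fun i _ => ?_
        rw [zpow_mul, zpow_natCast]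
      rw [h2]
      exact hk

end Pool.Agent.Q79.LS
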