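import Pool.Agent.Q7.LS.Stm
import Pool.Agent.Q22.LK.Cr2i

/-!
# Project LS (helper7), job CR2S: the classes of the `S`-units of relative norm `1`
-/

set_option autoImplicit false
set_option linter.unusedSectionVars false

namespace Pool.Agent.Q79.LS

open NumberField IsDedekindDomain Filter Topology Finset
open Pool.Agent.Q7.LK Pool.Agent.Q7.LS Pool.Agent.Q22.LK

/-! ### Valuations and automorphisms (after `Pool.Agent.Q190.SI.Nrm`) -/

section aut

variable {N : Type} [Field N] [NumberField N]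

theorem int_aut (E : 𝓞 N ≃+* 𝓞 N) (P Q : HeightOneSpectrum (𝓞 N))
    (h : Q.asIdeal = P.asIdeal.comap (E : 𝓞 N →+* 𝓞 N)) (r : 𝓞 N) :
    P.intValuation (E r) = Q.intValuation r := by
  by_cases hr : r = 0
  · rw [hr, map_zero, map_zero, map_zero]
  · have hr' : E r ≠ 0 := by rwa [Ne, EmbeddingLike.map_eq_zero_iff]
    have hpow : ∀ n : ℕ, E r ∈ P.asIdeal ^ n ↔ r ∈ Q.asIdeal ^ n := by
      intro n
      have h1 : Q.asIdeal ^ n = (P.asIdeal ^ n).comap (E : 𝓞 N →+* 𝓞 N) := by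
        rw [h]
        have h2 : ∀ I : Ideal (𝓞 N), I.comap (E : 𝓞 N →+* 𝓞 N) = I.map (E.symm : 𝓞 N →+* 𝓞 N) :=
          fun I => (Ideal.map_symm E).symm
        rw [h2, h2, Ideal.map_pow]
      rw [h1]
      exact Iff.rfl
    have hiff : ∀ n : ℕ, P.intValuation (E r) ≤ WithZero.exp (-(n : ℤ)) ↔
        Q.intValuation r ≤ WithZero.exp (-(n : ℤ)) := fun n => by
      rw [HeightOneSpectrum.intValuation_le_pow_iff_mem, HeightOneSpectrum.intValuation_le_pow_iff_mem]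
      exact hpow n
    rw [HeightOneSpectrum.intValuation_eq_exp_neg_multiplicity P hr',
      HeightOneSpectrum.intValuation_eq_exp_neg_multiplicity Q hr] at hiff ⊢
    refine le_antisymm ?_ ?_
    · exact (hiff _).2 le_rfl
    · exact (hiff _).1 le_rfl

theorem val_aut (E : N ≃+* N) (P Q : HeightOneSpectrum (𝓞 N))
    (h : Q.asIdeal = P.asIdeal.comap (RingOfIntegers.mapRingEquiv E : 𝓞 N →+* 𝓞 N)) (x : N) :
    P.valuation N (E x) = Q.valuation N x := by
  obtain ⟨a, b, -, rfl⟩ := IsFractionRing.div_surjective (A := 𝓞 N) x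
  have h1 : ∀ r : 𝓞 N, P.valuation N (E (algebraMap (𝓞 N) N r)) = Q.valuation N (algebraMap (𝓞 N) N r) := by
    intro r
    have h2 : E (algebraMap (𝓞 N) N r) = algebraMap (𝓞 N) N (RingOfIntegers.mapRingEquiv E r) := rfl
    rw [h2, HeightOneSpectrum.valuation_of_algebraMap, HeightOneSpectrum.valuation_of_algebraMap]
    exact int_aut _ P Q h r
  rw [map_div₀, map_div₀, map_div₀, h1, h1]

end aut

/-! ### The elements which are units above a prime -/

section un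

variable {F : Type} [Field F] [NumberField F] {L : Type} [Field L] [NumberField L] [Algebra F L]
  {v : HeightOneSpectrum (𝓞 F)}

theorem un_one : Un v (1 : L) := fun _ _ => map_one _

theorem un_mul {x y : L} (hx : Un v x) (hy : Un v y) : Un v (x * y) := fun P hP => by
  rw [map_mul, hx P hP, hy P hP, one_mul]

theorem un_inv {x : L} (hx : Un v x) : Un v x⁻¹ := fun P hP => by
  rw [map_inv₀, hx P hP, inv_one]

theorem un_pow {x : L} (hx : Un v x) (n : ℕ) : Un v (x ^ n) := fun P hP => by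
  rw [map_pow, hx P hP, one_pow]

theorem un_of_pow {x : L} {n : ℕ} (hn : n ≠ 0) (hx : Un v (x ^ n)) : Un v x := fun P hP => by
  have h := hx P hP
  rw [map_pow] at h
  exact (pow_eq_one_iff_left hn).1 h

theorem un_prod {ι : Type} (s : Finset ι) (f : ι → L) (h : ∀ i ∈ s, Un v (f i)) : Un v (∏ i ∈ s, f i) :=
  fun P hP => by
    rw [map_prod]
    exact Finset.prod_eq_one fun i hi => h i hi P hP

theorem un_aut (g : L ≃ₐ[F] L) {x : L} (hx : Un v x) : Un v (g x) := by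
  intro P hP
  let E : L ≃+* L := g.toRingEquiv
  let Q : HeightOneSpectrum (𝓞 L) := HeightOneSpectrum.comap
    (RingOfIntegers.mapRingEquiv E : 𝓞 L →+* 𝓞 L) (RingOfIntegers.mapRingEquiv E).surjective P
  have hQ : Pool.Agent.Q7.LS.Ab v Q := by
    unfold Pool.Agent.Q7.LS.Ab at hP ⊢
    rw [Ideal.map_le_iff_le_comap] at hP ⊢
    intro r hr
    have h2 : RingOfIntegers.mapRingEquiv E (algebraMap (𝓞 F) (𝓞 L) r) = algebraMap (𝓞 F) (𝓞 L) r := by
      apply RingOfIntegers.ext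
      exact g.commutes (r : F)
    show RingOfIntegers.mapRingEquiv E (algebraMap (𝓞 F) (𝓞 L) r) ∈ P.asIdeal
    rw [h2]
    exact hP hr
  have h1 := val_aut E P Q rfl x
  rw [hx Q hQ] at h1
  exact h1

/-- the automorphisms which change `y` by a unit above `v` -/
def stabU (v : HeightOneSpectrum (𝓞 F)) (y : L) (hy : y ≠ 0) : Subgroup (L ≃ₐ[F] L) where
  carrier := {g | Un v (g y / y)}
  one_mem' := by
    simp only [Set.mem_ofPred_eq, AlgEquiv.one_apply, div_self hy]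
    exact un_one
  mul_mem' := by
    intro g h hg hh
    simp only [Set.mem_ofPred_eq, AlgEquiv.mul_apply] at *
    have hgy : g y ≠ 0 := by rw [ne_eq, EmbeddingLike.map_eq_zero_iff]; exact hy
    have h1 : g (h y) / y = g (h y / y) * (g y / y) := by
      rw [map_div₀]; field_simp
    rw [h1]
    exact un_mul (un_aut g hh) hg
  inv_mem' := by
    intro g hg
    simp only [Set.mem_ofPred_eq] at *
    have hgg : g⁻¹ (g y) = y := by
      rw [← AlgEquiv.mul_apply, inv_mul_cancel, AlgEquiv.one_apply]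
    have h1 : g⁻¹ y / y = (g⁻¹ (g y / y))⁻¹ := by
      rw [map_div₀, hgg, inv_div]
    rw [h1]
    exact un_inv (un_aut g⁻¹ hg)

theorem un_of_norm_one {p : ℕ} {ζ d : F} {ρ : L} (hp : p.Prime) (hζ : IsPrimitiveRoot ζ p)
    (hfr : Module.finrank F L = p) (hρ : ρ ^ p = algebraMap F L d) (hd : ¬ IsPow p d)
    {σ : L ≃ₐ[F] L} (hσ : σ ≠ 1) {y : L} (hy : y ≠ 0)
    (hn : Algebra.norm F y = 1) {u : L} (hu1 : Un v u) (hu : σ y = u * y) : Un v y := by
  have hgal := galois hp hζ hfr hρ hd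
  have hst : σ ∈ stabU v y hy := by
    show Un v (σ y / y)
    rw [hu, mul_div_assoc, div_self hy, mul_one]; exact hu1
  have hall : ∀ g : L ≃ₐ[F] L, Un v (g y / y) := by
    intro g
    exact (Subgroup.zpowers_le.2 hst) (gen hp hζ hfr hρ hd hσ g)
  have hprod : ∏ g : L ≃ₐ[F] L, g y = 1 := by
    rw [← Algebra.norm_eq_prod_automorphisms F y, hn, map_one]
  have hcard : Fintype.card (L ≃ₐ[F] L) = p := by
    rw [← Nat.card_eq_fintype_card]; exact card_aut hp hζ hfr hρ hd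
  have h1 : ∏ g : L ≃ₐ[F] L, (g y / y) = (y⁻¹) ^ p := by
    rw [Finset.prod_div_distrib, hprod, Finset.prod_const, Finset.card_univ, hcard, one_div, inv_pow]
  have h2 : Un v y⁻¹ := by
    refine un_of_pow hp.ne_zero ?_
    rw [← h1]
    exact un_prod _ _ fun g _ => hall g
  have h3 := un_inv h2
  rwa [inv_inv] at h3

theorem mem_SUn {S : Set (HeightOneSpectrum (𝓞 F))} {w : Lˣ} (hw : w ∈ NS L S) (hv : v ∉ S) : Un v (w : L) :=
  hw.1 v hv

theorem norm_NS {S : Set (HeightOneSpectrum (𝓞 F))} {w : Lˣ} (hw : w ∈ NS L S) :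
    Algebra.norm F (w : L) = 1 := by
  have h1 : nmU F w = 1 := MonoidHom.mem_ker.1 hw.2
  have h2 := congrArg Units.val h1
  exact h2

theorem NS_of {S : Set (HeightOneSpectrum (𝓞 F))} {w : Lˣ} (h1 : ∀ v, v ∉ S → Un v (w : L))
    (h2 : Algebra.norm F (w : L) = 1) : w ∈ NS L S := by
  refine ⟨h1, ?_⟩
  show w ∈ (nmU F).ker
  rw [MonoidHom.mem_ker]
  exact Units.ext h2

end un

section one

variable {p : ℕ} [Fact p.Prime] {F L : Type} [Field F] [NumberField F] [Field L] [NumberField L] [Algebra F L]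
  {ζ d : F}

/-- the norm of `y` is not, up to a power of `d`, a `p`-th power -/
theorem not_pow_norm (hp2 : p ≠ 2) (hζ : IsPrimitiveRoot ζ p) (hK : Kum p F L d) (hd : ¬ IsPow p d)
    {S : Set (HeightOneSpectrum (𝓞 F))}
    {σ : L ≃ₐ[F] L} (hσ : σ ≠ 1) {w : Lˣ} (hw1 : w ∈ NS L S)
    (hw2 : ∀ η ∈ NS L S, ∀ j : ℕ, (w : L) * (η : L) ≠ (algebraMap F L ζ) ^ j * σ (η : L))
    {y : L} (hy0 : y ≠ 0) (hy : (w : L) * y = σ y) (j : ℕ) : ¬ IsPow p (Algebra.norm F y * d ^ j) := by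
  have hp : p.Prime := Fact.out
  obtain ⟨hfr, ρ, hρ⟩ := hK
  have hd0 : d ≠ 0 := by
    rintro rfl
    exact hd ⟨0, (zero_pow hp.ne_zero).symm⟩
  have hρ0 : ρ ≠ 0 := by
    rintro rfl
    rw [zero_pow hp.ne_zero] at hρ
    exact hd0 ((map_eq_zero_iff _ (algebraMap F L).injective).1 hρ.symm)
  have hN0 : Algebra.norm F y ≠ 0 := by
    rw [ne_eq, Algebra.norm_eq_zero_iff]; exact hy0
  intro hj
  obtain ⟨t, ht⟩ := hj
  have ht0 : t ≠ 0 := by
    rintro rfl
    rw [zero_pow hp.ne_zero] at ht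
    exact mul_ne_zero hN0 (pow_ne_zero _ hd0) ht
  have htL : algebraMap F L t ≠ 0 := by
    rw [ne_eq, map_eq_zero_iff _ (algebraMap F L).injective]; exact ht0
  obtain ⟨k, hk⟩ := aut_root hp hζ hρ hρ0 σ
  set z : L := algebraMap F L ζ with hz
  have hzp : z ^ p = 1 := by rw [hz, ← map_pow, hζ.pow_eq_one, map_one]
  have hzu : ∀ v : HeightOneSpectrum (𝓞 F), Un v z := by
    intro v
    refine un_of_pow hp.ne_zero ?_
    rw [hzp]
    exact un_one
  set y' : L := y * ρ ^ j / algebraMap F L t with hy'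
  have hy'0 : y' ≠ 0 := div_ne_zero (mul_ne_zero hy0 (pow_ne_zero _ hρ0)) htL
  have hn : Algebra.norm F y' = 1 := by
    have h1 : y' * algebraMap F L t = y * ρ ^ j := by
      rw [hy', div_mul_cancel₀ _ htL]
    have h2 := congrArg (Algebra.norm F) h1
    rw [map_mul, map_mul, map_pow, norm_root hp hp2 hfr hρ hd, Algebra.norm_algebraMap, hfr, ht] at h2
    exact (mul_eq_right₀ (pow_ne_zero _ ht0)).1 h2
  have hσt : σ (algebraMap F L t) = algebraMap F L t := σ.commutes t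
  have hu : σ y' = ((w : L) * z ^ (k * j)) * y' := by
    rw [hy', map_div₀, map_mul, map_pow, hσt, ← hy, hk, mul_pow, ← pow_mul]
    field_simp
  have hη : Units.mk0 y' hy'0 ∈ NS L S := by
    refine NS_of (fun v hv => ?_) ?_
    · rw [Units.val_mk0]
      exact un_of_norm_one hp hζ hfr hρ hd hσ hy'0 hn
        (u := (w : L) * z ^ (k * j)) (un_mul (mem_SUn hw1 hv) (un_pow (hzu v) _)) hu
    · rw [Units.val_mk0]
      exact hn
  refine hw2 _ hη ((p - 1) * (k * j)) ?_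
  rw [Units.val_mk0, hu]
  have h1 : z ^ ((p - 1) * (k * j)) * z ^ (k * j) = 1 := by
    rw [← pow_add]
    have : (p - 1) * (k * j) + k * j = p * (k * j) := by
      obtain ⟨q, hq⟩ : ∃ q, p = q + 1 := ⟨p - 1, by have := hp.pos; omega⟩
      rw [hq]; simp; ring
    rw [this, pow_mul, hzp, one_pow]
  calc (w : L) * y' = (z ^ ((p - 1) * (k * j)) * z ^ (k * j)) * ((w : L) * y') := by
        rw [h1, one_mul]
    _ = _ := by ring

/-- the local conditions for the norm of `y` -/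
theorem cond_norm (hA : S_CLA) (hB : S_CLB) (hT : S_CTS) (hU : S_CUS) (hN : S_NSP)
    (hp2 : p ≠ 2) (hζ : IsPrimitiveRoot ζ p) (hK : Kum p F L d) (hd : ¬ IsPow p d)
    {T S : Set (HeightOneSpectrum (𝓞 F))} (hTp : ∀ v ∈ T, Dp p v) (hTS : Disjoint T S)
    {σ : L ≃ₐ[F] L} (hσ : σ ≠ 1) {w : Lˣ} (hw : w ∈ NS L S) {M : ℕ}
    (hM : ∀ N : ℕ, ∃ η ∈ NS L S, Nr p T N (((w * η ^ p) ^ p ^ M : Lˣ) : L))
    {y : L} (hy0 : y ≠ 0) (hy : (w : L) * y = σ y) (v : HeightOneSpectrum (𝓞 F)) :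
    AX p T S d v (Algebra.norm F y) := by
  have hN0 : Algebra.norm F y ≠ 0 := by
    rw [ne_eq, Algebra.norm_eq_zero_iff]; exact hy0
  have hun : ¬ (v ∈ S ∧ Lpw p v d) → Un v (w : L) := by
    intro h
    by_cases hvS : v ∈ S
    · exact hN p hp2 F L ζ d hζ hK hd v (fun h1 => h ⟨hvS, h1⟩) w (norm_NS hw)
    · exact mem_SUn hw hvS
  refine ⟨hN0, ?_, ?_, ?_⟩
  · intro hvT
    have hvS : v ∉ S := fun h => Set.disjoint_left.1 hTS hvT h
    have hMv : ∀ N : ℕ, ∃ η : Lˣ, Algebra.norm F (η : L) = 1 ∧ Un v (η : L) ∧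
        Nr p {v} N (((w * η ^ p) ^ p ^ M : Lˣ) : L) := by
      intro N
      obtain ⟨η, hη, h1⟩ := hM N
      refine ⟨η, norm_NS hη, mem_SUn hη hvS, fun v' hv' => ?_⟩
      rw [Set.mem_singleton_iff] at hv'
      rw [hv']
      exact h1 v hvT
    exact ⟨hN0, fun h => hB p hp2 F L ζ d hζ hK hd σ hσ v (hTp v hvT) w M (mem_SUn hw hvS) hMv y hy0 hy h,
      fun h => hA p hp2 F L ζ d hζ hK hd σ hσ v (hTp v hvT) w M (mem_SUn hw hvS) hMv y hy0 hy h⟩
  · intro _ _ h
    exact hU p hp2 F L ζ d hζ hK hd σ hσ v w (hun h) y hy0 hy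
  · intro _ hv h
    exact ⟨hN0, (hT p hp2 F L ζ d hζ hK hd σ hσ v hv w (hun h) y hy0 hy).1,
      (hT p hp2 F L ζ d hζ hK hd σ hσ v hv w (hun h) y hy0 hy).2⟩

end one

/-- **CR2S** -/
theorem cr2s (hA : S_CLA) (hB : S_CLB) (hT : S_CTS) (hU : S_CUS) (hN : S_NSP) : S_CR2S := by
  intro p _ hp2 F L _ _ _ _ _ ζ d hζ hK hd T S hTp hTS t σ hσ hW
  have hp : p.Prime := Fact.out
  obtain ⟨w, hw1, hw2, M, hM⟩ := hW
  have h90 : ∀ i, ∃ y : L, y ≠ 0 ∧ ((w i : Lˣ) : L) * y = σ y := by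
    intro i
    obtain ⟨hfr, ρ, hρ⟩ := hK
    obtain ⟨y, hy0, hy⟩ := hilbert90 hp hζ hfr hρ hd hσ (norm_NS (hw1 i))
    exact ⟨y, hy0, hy⟩
  choose y hy0 hy using h90
  let nz : L →*₀ F := { (Algebra.norm F : L →* F) with map_zero' := Algebra.norm_zero }
  have hnd : ∀ x x' : L, Algebra.norm F (x / x') = Algebra.norm F x / Algebra.norm F x' := fun x x' => map_div₀ nz x x'
  have hprod : ∀ C : Fin t → ℤ, ((∏ i, w i ^ C i : Lˣ) : L) = ∏ i, ((w i : Lˣ) : L) ^ C i := by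
    intro C
    rw [Units.coe_prod]
    refine Finset.prod_congr rfl fun i _ => ?_
    rw [Units.val_zpow_eq_zpow_val]
  have hyC0 : ∀ C : Fin t → ℤ, ∏ i, y i ^ C i ≠ 0 := fun C =>
    Finset.prod_ne_zero_iff.2 fun i _ => zpow_ne_zero _ (hy0 i)
  have hyC : ∀ C : Fin t → ℤ, ((∏ i, w i ^ C i : Lˣ) : L) * ∏ i, y i ^ C i = σ (∏ i, y i ^ C i) := by
    intro C
    rw [hprod, ← Finset.prod_mul_distrib, map_prod]
    refine Finset.prod_congr rfl fun i _ => ?_
    rw [map_zpow₀, ← hy i, mul_zpow]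
  have hwC : ∀ C : Fin t → ℤ, (∏ i, w i ^ C i : Lˣ) ∈ NS L S := fun C =>
    Subgroup.prod_mem _ fun i _ => Subgroup.zpow_mem _ (hw1 i) _
  have hcond : ∀ C : Fin t → ℤ, ∀ v, AX p T S d v (Algebra.norm F (∏ i, y i ^ C i)) := fun C =>
    cond_norm hA hB hT hU hN hp2 hζ hK hd hTp hTS hσ (hwC C) (hM C) (hyC0 C) (hyC C)
  have hnp : ∀ C : Fin t → ℤ, (∃ i, ¬ (p : ℤ) ∣ C i) → ∀ j : ℕ, ¬ IsPow p (Algebra.norm F (∏ i, y i ^ C i) * d ^ j) :=
    fun C hC j => not_pow_norm hp2 hζ hK hd hσ (hwC C) (hw2 C hC) (hyC0 C) (hyC C) j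
  -- the nonzero classes
  have hcard : Fintype.card {c : Fin t → ZMod p // c ≠ 0} = p ^ t - 1 := by
    rw [Fintype.card_subtype_compl, Fintype.card_subtype_eq, Fintype.card_fun, ZMod.card, Fintype.card_fin]
  let e := (Fintype.equivFinOfCardEq hcard).symm
  let v : (Fin t → ZMod p) → Fin t → ℤ := fun c i => ((c i).val : ℤ)
  have hdvd : ∀ c c' : Fin t → ZMod p, c ≠ c' → ∃ i, ¬ (p : ℤ) ∣ v c i - v c' i := by
    intro c c' hne
    by_contra hcon
    push Not at hcon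
    apply hne
    funext i
    have h1 := (ZMod.intCast_zmod_eq_zero_iff_dvd (v c i - v c' i) p).2 (hcon i)
    simp only [v] at h1
    push_cast at h1
    rw [ZMod.natCast_zmod_val, ZMod.natCast_zmod_val] at h1
    exact sub_eq_zero.1 h1
  refine ⟨fun i => Algebra.norm F (∏ l, y l ^ v (e i).1 l), fun i => ⟨hcond _, hnp _ ?_⟩, ?_⟩
  · obtain ⟨l, hl⟩ := hdvd (e i).1 0 (e i).2
    refine ⟨l, ?_⟩
    simpa [v] using hl
  · intro i i' hne j
    have h1 : Algebra.norm F (∏ l, y l ^ v (e i).1 l) / Algebra.norm F (∏ l, y l ^ v (e i').1 l) =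
        Algebra.norm F (∏ l, y l ^ (fun l => v (e i).1 l - v (e i').1 l) l) := by
      rw [← hnd, ← Finset.prod_div_distrib]
      congr 1
      refine Finset.prod_congr rfl fun l _ => ?_
      rw [zpow_sub₀ (hy0 l)]
    show ¬ IsPow p (Algebra.norm F (∏ l, y l ^ v (e i).1 l) / Algebra.norm F (∏ l, y l ^ v (e i').1 l) * d ^ j)
    rw [h1]
    refine hnp _ (hdvd _ _ ?_) j
    intro h2
    exact hne (e.injective (Subtype.ext h2))

end Pool.Agent.Q79.LS
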