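import Pool.Agent.Q7.LS.Stm2
import Pool.Agent.Q22.LK.Pid

/-!
# Project LS (helper7), job LOGB, first part: vectors which belong to elements of `ℚ_p ⊗ E`; primes of embeddings
-/

set_option autoImplicit false
set_option linter.unusedSectionVars false

namespace Pool.Agent.Q79.LS

open NumberField IsDedekindDomain Module Filter Topology Finset
open Pool.Agent.W289.SL Pool.Agent.Y419.LC.LcpP

section rat

variable {p : ℕ} [hp : Fact p.Prime] {E : Type} [Field E] [NumberField E]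

/-- the vector `V` (indexed by the embeddings) belongs to an element of `ℚ_p ⊗ E` -/
def RatV (V : (E →+* ℂ_[p]) → ℂ_[p]) : Prop :=
  ∃ c : Pool.Agent.Y419.LC.LcpP.J E → ℚ_[p], ∀ σ : E →+* ℂ_[p],
    V σ = ∑ j, algebraMap ℚ_[p] ℂ_[p] (c j) * σ ((om E j : 𝓞 E) : E)

theorem rat_elem (x : E) : RatV (p := p) (fun σ : E →+* ℂ_[p] => σ x) := by
  refine ⟨fun j => (((integralBasis E).repr x j : ℚ) : ℚ_[p]), fun σ => ?_⟩
  show σ x = _
  conv_lhs => rw [← (integralBasis E).sum_repr x]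
  rw [map_sum]
  refine Finset.sum_congr rfl fun j _ => ?_
  rw [Algebra.smul_def, map_mul, eq_ratCast, map_ratCast, map_ratCast, integralBasis_apply]

theorem rat_mul {V W : (E →+* ℂ_[p]) → ℂ_[p]} (hV : RatV V) (hW : RatV W) : RatV (fun σ => V σ * W σ) := by
  obtain ⟨e, he⟩ := hV
  obtain ⟨c, hc⟩ := hW
  refine ⟨fun m => ∑ j, ∑ l, e j * c l * (((om E).repr (om E j * om E l) m : ℤ) : ℚ_[p]), fun σ => ?_⟩
  have h1 : ∀ j l, σ ((om E j : 𝓞 E) : E) * σ ((om E l : 𝓞 E) : E) =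
      ∑ m, (((om E).repr (om E j * om E l) m : ℤ) : ℂ_[p]) * σ ((om E m : 𝓞 E) : E) := by
    intro j l
    rw [← emb_coord σ (om E j * om E l)]
    simp only [map_mul]
  symm
  calc ∑ m, algebraMap ℚ_[p] ℂ_[p] (∑ j, ∑ l, e j * c l * (((om E).repr (om E j * om E l) m : ℤ) : ℚ_[p])) *
        σ ((om E m : 𝓞 E) : E) = ∑ m, ∑ j, ∑ l, (algebraMap ℚ_[p] ℂ_[p] (e j) * algebraMap ℚ_[p] ℂ_[p] (c l) *
          (((om E).repr (om E j * om E l) m : ℤ) : ℂ_[p])) * σ ((om E m : 𝓞 E) : E) := by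
        refine Finset.sum_congr rfl fun m _ => ?_
        rw [map_sum, Finset.sum_mul]
        refine Finset.sum_congr rfl fun j _ => ?_
        rw [map_sum, Finset.sum_mul]
        refine Finset.sum_congr rfl fun l _ => ?_
        rw [map_mul, map_mul, map_intCast]
    _ = ∑ j, ∑ l, ∑ m, (algebraMap ℚ_[p] ℂ_[p] (e j) * algebraMap ℚ_[p] ℂ_[p] (c l) *
          (((om E).repr (om E j * om E l) m : ℤ) : ℂ_[p])) * σ ((om E m : 𝓞 E) : E) := by
        rw [Finset.sum_comm]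
        refine Finset.sum_congr rfl fun j _ => ?_
        rw [Finset.sum_comm]
    _ = ∑ j, ∑ l, (algebraMap ℚ_[p] ℂ_[p] (e j) * σ ((om E j : 𝓞 E) : E)) *
          (algebraMap ℚ_[p] ℂ_[p] (c l) * σ ((om E l : 𝓞 E) : E)) := by
        refine Finset.sum_congr rfl fun j _ => Finset.sum_congr rfl fun l _ => ?_
        have h2 : (algebraMap ℚ_[p] ℂ_[p] (e j) * σ ((om E j : 𝓞 E) : E)) *
          (algebraMap ℚ_[p] ℂ_[p] (c l) * σ ((om E l : 𝓞 E) : E)) = algebraMap ℚ_[p] ℂ_[p] (e j) *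
            algebraMap ℚ_[p] ℂ_[p] (c l) * (σ ((om E j : 𝓞 E) : E) * σ ((om E l : 𝓞 E) : E)) := by ring
        rw [h2, h1, Finset.mul_sum]
        refine Finset.sum_congr rfl fun m _ => ?_
        ring
    _ = (∑ j, algebraMap ℚ_[p] ℂ_[p] (e j) * σ ((om E j : 𝓞 E) : E)) *
          ∑ l, algebraMap ℚ_[p] ℂ_[p] (c l) * σ ((om E l : 𝓞 E) : E) := by
        rw [Finset.sum_mul_sum]
    _ = _ := by
        show _ = V σ * W σ
        rw [he σ, hc σ]

theorem rat_lim {V : ℕ → (E →+* ℂ_[p]) → ℂ_[p]} {W : (E →+* ℂ_[p]) → ℂ_[p]} (hV : ∀ k, RatV (V k))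
    (h : ∀ σ, Tendsto (fun k => V k σ) atTop (𝓝 (W σ))) : RatV W := by
  obtain ⟨N, hN⟩ := exists_inv (p := p) (E := E)
  choose c hc using hV
  have hco : ∀ j, Tendsto (fun k : ℕ => algebraMap ℚ_[p] ℂ_[p] (c k j)) atTop
      (𝓝 (∑ σ : E →+* ℂ_[p], W σ * N σ j)) := by
    intro j
    have h1 : ∀ k, algebraMap ℚ_[p] ℂ_[p] (c k j) = ∑ σ : E →+* ℂ_[p], V k σ * N σ j := by
      intro k
      rw [hN (fun j => algebraMap ℚ_[p] ℂ_[p] (c k j)) j]
      exact Finset.sum_congr rfl fun σ _ => by rw [hc k σ]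
    simp only [h1]
    exact tendsto_finsetSum _ fun σ _ => (h σ).mul_const _
  have hcl : IsClosed (Set.range (algebraMap ℚ_[p] ℂ_[p])) :=
    (algebraMap_isometry ℚ_[p] ℂ_[p]).isClosedEmbedding.isClosed_range
  have he : ∀ j, ∃ e : ℚ_[p], algebraMap ℚ_[p] ℂ_[p] e = ∑ σ : E →+* ℂ_[p], W σ * N σ j := fun j =>
    hcl.mem_of_tendsto (hco j) (Eventually.of_forall fun k => ⟨c k j, rfl⟩)
  choose e he using he
  refine ⟨e, fun σ => ?_⟩
  have h2 : Tendsto (fun k : ℕ => ∑ j, algebraMap ℚ_[p] ℂ_[p] (c k j) * σ ((om E j : 𝓞 E) : E)) atTop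
      (𝓝 (∑ j, algebraMap ℚ_[p] ℂ_[p] (e j) * σ ((om E j : 𝓞 E) : E))) := by
    refine tendsto_finsetSum _ fun j _ => ?_
    rw [he]
    exact (hco j).mul_const _
  have h3 : (fun k : ℕ => ∑ j, algebraMap ℚ_[p] ℂ_[p] (c k j) * σ ((om E j : 𝓞 E) : E)) = fun k => V k σ := by
    funext k
    rw [hc k σ]
  rw [h3] at h2
  exact tendsto_nhds_unique (h σ) h2

open Classical in
/-- the logarithms of an element near `1` at the embeddings above `I` -/
theorem rat_log {L : ℂ_[p] → ℂ_[p]} (hL : IsIwasawaLog p L) (I : Ideal (𝓞 E)) (x : E)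
    (hx : ∀ σ : E →+* ℂ_[p], Pool.Agent.Q22.LK.Ab I σ → ‖σ x - 1‖ < 1) :
    RatV (p := p) (fun σ => if Pool.Agent.Q22.LK.Ab I σ then L (σ x) else 0) := by
  have hid : RatV (p := p) (fun σ : E →+* ℂ_[p] => if Pool.Agent.Q22.LK.Ab I σ then 1 else 0) := by
    obtain ⟨e, he⟩ := Pool.Agent.Q22.LK.idem (p := p) I
    exact ⟨e, fun σ => (he σ).symm⟩
  refine rat_lim (V := fun K σ => (if Pool.Agent.Q22.LK.Ab I σ then 1 else 0) *
    σ (∑ n ∈ range K, (-1 : E) ^ n * (x - 1) ^ (n + 1) / ((n : E) + 1)))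
    (fun K => rat_mul hid (rat_elem _)) fun σ => ?_
  by_cases h : Pool.Agent.Q22.LK.Ab I σ
  · simp only [if_pos h, one_mul]
    have h1 := (hL.ser (σ x - 1) (hx σ h)).tendsto_sum_nat
    rw [add_sub_cancel] at h1
    refine h1.congr fun K => ?_
    rw [map_sum]
    refine Finset.sum_congr rfl fun n _ => ?_
    rw [map_div₀, map_mul, map_pow, map_pow, map_neg, map_one, map_sub, map_one, map_add, map_natCast, map_one]
  · simp only [if_neg h, zero_mul]
    exact tendsto_const_nhds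

end rat

section pe

variable {p : ℕ} [hp : Fact p.Prime] {E : Type} [Field E] [NumberField E]

/-- the prime of the embedding `σ` -/
def Pe (σ : E →+* ℂ_[p]) : Ideal (𝓞 E) where
  carrier := {a | ‖σ ((a : 𝓞 E) : E)‖ < 1}
  add_mem' := by
    intro a b ha hb
    simp only [Set.mem_ofPred_eq] at *
    have h1 : σ ((a + b : 𝓞 E) : E) = σ ((a : 𝓞 E) : E) + σ ((b : 𝓞 E) : E) := by
      simp only [map_add]
    rw [h1]
    exact lt_of_le_of_lt (IsUltrametricDist.norm_add_le_max _ _) (max_lt ha hb)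
  zero_mem' := by
    simp only [Set.mem_ofPred_eq, map_zero, norm_zero]
    exact one_pos
  smul_mem' := by
    intro c a ha
    simp only [Set.mem_ofPred_eq, smul_eq_mul] at *
    have h1 : σ ((c * a : 𝓞 E) : E) = σ ((c : 𝓞 E) : E) * σ ((a : 𝓞 E) : E) := by
      simp only [map_mul]
    rw [h1, norm_mul]
    calc ‖σ ((c : 𝓞 E) : E)‖ * ‖σ ((a : 𝓞 E) : E)‖ ≤ 1 * ‖σ ((a : 𝓞 E) : E)‖ := by
          gcongr
          exact norm_emb_le σ c
      _ < 1 := by rwa [one_mul]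

theorem mem_Pe (σ : E →+* ℂ_[p]) (a : 𝓞 E) : a ∈ Pe σ ↔ ‖σ ((a : 𝓞 E) : E)‖ < 1 := Iff.rfl

theorem norm_of_not_mem {σ : E →+* ℂ_[p]} {a : 𝓞 E} (h : a ∉ Pe σ) : ‖σ ((a : 𝓞 E) : E)‖ = 1 :=
  le_antisymm (norm_emb_le σ a) (not_lt.1 h)

instance pe_prime (σ : E →+* ℂ_[p]) : (Pe σ).IsPrime := by
  refine ⟨?_, ?_⟩
  · rw [Ne, Ideal.eq_top_iff_one, mem_Pe]
    simp only [map_one, norm_one, lt_irrefl, not_false_eq_true]
  · intro a b hab
    by_contra h
    push Not at h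
    rw [mem_Pe] at hab
    have h1 : σ ((a * b : 𝓞 E) : E) = σ ((a : 𝓞 E) : E) * σ ((b : 𝓞 E) : E) := by
      simp only [map_mul]
    rw [h1, norm_mul, norm_of_not_mem h.1, norm_of_not_mem h.2, one_mul] at hab
    exact lt_irrefl _ hab

theorem p_mem_Pe (σ : E →+* ℂ_[p]) : ((p : ℕ) : 𝓞 E) ∈ Pe σ := by
  rw [mem_Pe]
  have h1 : σ ((((p : ℕ) : 𝓞 E) : 𝓞 E) : E) = ((p : ℕ) : ℂ_[p]) := by
    simp only [map_natCast]
  rw [h1]
  exact lt_of_le_of_lt Pool.Agent.Q22.LK.norm_p_le (by norm_num)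

theorem Pe_ne_bot (σ : E →+* ℂ_[p]) : Pe σ ≠ ⊥ := by
  intro h
  have h1 := p_mem_Pe σ
  rw [h, Ideal.mem_bot] at h1
  exact hp.out.ne_zero (by exact_mod_cast h1)

/-- the prime of the embedding `σ` -/
def PeH (σ : E →+* ℂ_[p]) : HeightOneSpectrum (𝓞 E) := ⟨Pe σ, pe_prime σ, Pe_ne_bot σ⟩

end pe

/-- an element which is integral at `P` is a quotient with a denominator outside `P` -/
theorem exists_rep0 {R K : Type} [CommRing R] [IsDedekindDomain R] [Field K] [Algebra R K] [IsFractionRing R K]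
    (P : HeightOneSpectrum R) (z : K) (hz : P.valuation K z ≤ 1) :
    ∃ a s : R, s ∉ P.asIdeal ∧ z * algebraMap R K s = algebraMap R K a := by
  obtain ⟨a, b, hb, rfl⟩ := IsFractionRing.div_surjective (A := R) z
  have hb0 : b ≠ 0 := nonZeroDivisors.ne_zero hb
  have hspan : Ideal.span {b} ≠ 0 := Submodule.span_singleton_eq_bot.mp.mt hb0
  have hfin : FiniteMultiplicity P.asIdeal (Ideal.span {b}) :=
    FiniteMultiplicity.of_prime_left P.prime hspan
  obtain ⟨I, hI, hdvd⟩ := hfin.exists_eq_pow_mul_and_not_dvd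
  set m := multiplicity P.asIdeal (Ideal.span {b}) with hm
  have h1 : ¬ I ≤ P.asIdeal := fun h => hdvd (Ideal.dvd_iff_le.2 h)
  obtain ⟨s, hsI, hsP⟩ := Set.not_subset.1 h1
  have hbE : algebraMap R K b ≠ 0 := by
    rw [Ne, map_eq_zero_iff _ (IsFractionRing.injective R K)]
    exact hb0
  have hle : Ideal.span {b} ≤ P.asIdeal ^ m := by
    rw [hI]
    exact Ideal.mul_le_left (I := P.asIdeal ^ m) (J := I)
  have hbm : b ∈ P.asIdeal ^ m := hle (Ideal.mem_span_singleton_self b)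
  have ham : a ∈ P.asIdeal ^ m := by
    rw [← HeightOneSpectrum.intValuation_le_pow_iff_mem]
    rw [← HeightOneSpectrum.intValuation_le_pow_iff_mem] at hbm
    refine le_trans ?_ hbm
    rw [map_div₀, HeightOneSpectrum.valuation_of_algebraMap, HeightOneSpectrum.valuation_of_algebraMap] at hz
    exact (div_le_one₀ (zero_lt_iff.2 (P.intValuation_ne_zero b hb0))).1 hz
  have hle' : P.asIdeal ^ m * I ≤ Ideal.span {b} := le_of_eq hI.symm
  have h4 : a * s ∈ Ideal.span {b} := hle' (Ideal.mul_mem_mul ham hsI)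
  obtain ⟨c, hc⟩ := Ideal.mem_span_singleton.1 h4
  refine ⟨c, s, hsP, ?_⟩
  have h5 : algebraMap R K a * algebraMap R K s = algebraMap R K b * algebraMap R K c := by
    rw [← map_mul, ← map_mul, hc]
  field_simp
  rw [h5]

/-- an element which is integral at `P` is a quotient with a denominator outside `P` -/
theorem exists_rep {E : Type} [Field E] [NumberField E] (P : HeightOneSpectrum (𝓞 E)) (z : E)
    (hz : P.valuation E z ≤ 1) : ∃ a s : 𝓞 E, s ∉ P.asIdeal ∧ z * ((s : 𝓞 E) : E) = ((a : 𝓞 E) : E) :=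
  exists_rep0 P z hz

end Pool.Agent.Q79.LS
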